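import Pool.Agent.Helper69.MF.StB

/-!
# Project MF, module G4
-/

set_option autoImplicit false

open Set Topology Filter MeasureTheory
open Pool.Agent.Helper31.CY Pool.Agent.Helper69.MF

namespace Pool.Agent.Helper60.MF

theorem dt_comm (x y : E3) : dt x y = dt y x := by unfold dt; ring

theorem dt_sub_left (x y z : E3) : dt (x - y) z = dt x z - dt y z := by
  simp only [dt, PiLp.sub_apply]; ring

theorem dt_smul_left (c : ℝ) (x y : E3) : dt (c • x) y = c * dt x y := by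
  simp only [dt, PiLp.smul_apply, smul_eq_mul]; ring

theorem dt_smul_right (c : ℝ) (x y : E3) : dt x (c • y) = c * dt x y := by
  simp only [dt, PiLp.smul_apply, smul_eq_mul]; ring

theorem dt_eq_inner (x y : E3) : dt x y = inner ℝ x y := by
  simp only [dt, PiLp.inner_apply, Fin.sum_univ_three]
  simp
  ring

theorem dt_self_pos (x : E3) (hx : x ≠ 0) : 0 < dt x x := by
  rw [dt_eq_inner]
  exact real_inner_self_pos.2 hx

theorem dt_iso (A : E3 →L[ℝ] E3) (hA : ∀ v, ‖A v‖ = ‖v‖) (v w : E3) :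
    dt (A v) (A w) = dt v w := by
  rw [dt_eq_inner, dt_eq_inner]
  exact LinearIsometry.inner_map_map (⟨A.toLinearMap, hA⟩ : E3 →ₗᵢ[ℝ] E3) v w

theorem surj_of_inj (A : E3 →L[ℝ] E3) (hA : ∀ v, v ≠ 0 → A v ≠ 0) :
    Function.Surjective A := by
  have h3 : Function.Injective A.toLinearMap := by
    rw [injective_iff_map_eq_zero]
    intro v hv
    by_contra hne
    exact hA v hne hv
  exact LinearMap.injective_iff_surjective.1 h3

theorem map_nhds' (Φ : E3 → E3) (U : Set E3) (hU : IsOpen U) (q : E3) (hq : q ∈ U)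
    (hC : ContDiffOn ℝ 1 Φ U) (hinj : ∀ v, v ≠ 0 → fderiv ℝ Φ q v ≠ 0) :
    map Φ (𝓝 q) = 𝓝 (Φ q) := by
  have h1 : ContDiffAt ℝ 1 Φ q := hC.contDiffAt (hU.mem_nhds hq)
  have h2 : HasStrictFDerivAt Φ (fderiv ℝ Φ q) q := h1.hasStrictFDerivAt (by norm_num)
  apply h2.map_nhds_eq_of_surj
  exact LinearMap.range_eq_top.2 (surj_of_inj _ hinj)

theorem Jv_cont : Continuous Jv := by
  have h : Jv = fun x : E3 => (x 0) • pt 0 1 0 + (-(x 1)) • pt 1 0 0 := by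
    funext x
    ext i
    fin_cases i <;> simp [Jv, pt]
  rw [h]
  fun_prop

theorem Jv_ne (y : E3) (hy : 0 < rad y) : Jv y ≠ 0 := by
  intro h
  have h0 : (Jv y) 0 = 0 := by rw [h]; rfl
  have h1 : (Jv y) 1 = 0 := by rw [h]; rfl
  have h0' : y 1 = 0 := by simpa [Jv, pt] using h0
  have h1' : y 0 = 0 := by simpa [Jv, pt] using h1
  unfold rad at hy
  rw [h0', h1'] at hy
  simp at hy

/-- the proportionality relation -/
def PR (Φ : E3 → E3) (n : E3) (x : E3) : Prop :=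
  ∀ v w : E3, dt (fderiv ℝ Φ x v) n * dt w (Jv x) - dt (fderiv ℝ Φ x w) n * dt v (Jv x) = 0

theorem PR_of_nrm (Φ : E3 → E3) (n : E3) (S : Set E3) (x : E3) (hN : Nrm S x)
    (hT : ∀ v, v ∈ TCn S x ↔ dt (fderiv ℝ Φ x v) n = 0) : PR Φ n x := by
  intro v w
  have h1 : (dt (fderiv ℝ Φ x v) n • w - dt (fderiv ℝ Φ x w) n • v) ∈ TCn S x := by
    rw [hT, map_sub, map_smul, map_smul, dt_sub_left, dt_smul_left, dt_smul_left]
    ring
  have h2 := hN _ h1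
  rw [dt_sub_left, dt_smul_left, dt_smul_left] at h2
  exact h2

theorem lim_eq (f : E3 → ℝ) (y : E3) (hf : ContinuousAt f y) (h : ∃ᶠ x in 𝓝 y, f x = 0) :
    f y = 0 := by
  by_contra hne
  exact h (hf.eventually_ne hne)

theorem dt_cont {f g : E3 → E3} {y : E3} (hf : ContinuousAt f y) (hg : ContinuousAt g y) :
    ContinuousAt (fun x => dt (f x) (g x)) y := by
  have h : (fun x => dt (f x) (g x)) = fun x => (inner ℝ (f x) (g x) : ℝ) := by
    funext x; exact dt_eq_inner _ _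
  rw [h]
  exact ContinuousAt.inner hf hg

theorem PR_lim (Φ : E3 → E3) (n : E3) (y : E3) (hA : ContinuousAt (fderiv ℝ Φ) y)
    (h : ∃ᶠ x in 𝓝 y, PR Φ n x) : PR Φ n y := by
  intro v w
  apply lim_eq (fun x => dt (fderiv ℝ Φ x v) n * dt w (Jv x) -
    dt (fderiv ℝ Φ x w) n * dt v (Jv x)) y
  · have hJ : ContinuousAt Jv y := Jv_cont.continuousAt
    have h1 : ∀ u : E3, ContinuousAt (fun x => fderiv ℝ Φ x u) y := fun u =>
      hA.clm_apply continuousAt_const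
    have h2 : ∀ u : E3, ContinuousAt (fun x => dt (fderiv ℝ Φ x u) n) y := fun u =>
      dt_cont (h1 u) continuousAt_const
    have h3 : ∀ u : E3, ContinuousAt (fun x => dt u (Jv x)) y := fun u =>
      dt_cont continuousAt_const hJ
    exact ((h2 v).mul (h3 w)).sub ((h2 w).mul (h3 v))
  · exact h.mono (fun x hx => hx v w)

/-- consequence of the proportionality relation at `y` -/
theorem PR_alg (Φ : E3 → E3) (n : E3) (y : E3) (hiso : ∀ v, ‖fderiv ℝ Φ y v‖ = ‖v‖)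
    (hn : dt n n = 1) (h : PR Φ n y) :
    (∀ u, dt (Jv y) (Jv y) * dt u n =
      dt (fderiv ℝ Φ y (Jv y)) n * dt u (fderiv ℝ Φ y (Jv y))) ∧
    dt (fderiv ℝ Φ y (Jv y)) n ^ 2 = dt (Jv y) (Jv y) := by
  have hs : Function.Surjective (fderiv ℝ Φ y) := by
    apply surj_of_inj
    intro v hv h0
    apply hv
    rw [← norm_eq_zero, ← hiso v, h0, norm_zero]
  have h1 : ∀ u, dt (Jv y) (Jv y) * dt u n =
      dt (fderiv ℝ Φ y (Jv y)) n * dt u (fderiv ℝ Φ y (Jv y)) := by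
    intro u
    obtain ⟨v, hv⟩ := hs u
    have h2 := h v (Jv y)
    rw [← hv, dt_iso _ hiso]
    linarith
  refine ⟨h1, ?_⟩
  have h3 := h1 n
  rw [hn, dt_comm n] at h3
  rw [sq, ← h3, mul_one]

theorem core (hG0 : StG0) (hG1 : StG1) (r0 r1 h : ℝ) (S : Set E3) (y : E3) (z : ℕ → E3)
    (hM : MPS S (circ r0 0 ∪ circ r1 h)) (hTN : TN r0 r1 h S) (hyS : y ∈ S)
    (hyG : y ∉ circ r0 0 ∪ circ r1 h) (hr : 0 < rad y) (M : Set E3)
    (hMod : ModelAt S M y) (hMYT : M = Ycone ∨ M = Tcone) (m : ℕ) (F : Fin m → Set E3)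
    (N : Fin m → E3) (hF : Faces M m F N) (hz : ∀ n, NP r0 r1 h S (z n))
    (hlim : Tendsto z atTop (𝓝 y)) : False := by
  obtain ⟨Φ, U, hU, hyU, hC, hΦy, hiso, hSM⟩ := hMod
  obtain ⟨hN1, hF2, hF3, hF4, hF5⟩ := hF
  obtain ⟨ε, hε, hG⟩ := hG0 r0 r1 h S hM M m F N hMYT ⟨hN1, hF2, hF3, hF4, hF5⟩ y hyS hyG Φ U hU
    hyU hC hΦy hiso hSM
  have hinjy : ∀ v, v ≠ 0 → fderiv ℝ Φ y v ≠ 0 := by
    intro v hv h0
    apply hv
    rw [← norm_eq_zero, ← hiso v, h0, norm_zero]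
  have hA : ContinuousAt (fderiv ℝ Φ) y := by
    have h1 : ContDiffAt ℝ 1 Φ y := hC.contDiffAt (hU.mem_nhds hyU)
    exact (h1.fderiv_right (m := 0) (by norm_num)).continuousAt
  -- normal points on faces, frequently
  have hstep : ∃ᶠ x in 𝓝 y, ∃ i, x ∈ S ∧ dist x y < ε ∧ Φ x ∈ F i ∧ Nrm S x := by
    rw [Filter.frequently_iff]
    intro V hV
    obtain ⟨δ, hδ, hδV⟩ := Metric.mem_nhds_iff.1 hV
    have hδ' : 0 < min δ ε := lt_min hδ hε
    obtain ⟨n, hn⟩ := (hlim.eventually (Metric.ball_mem_nhds y hδ')).exists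
    have hzn : dist (z n) y < min δ ε := hn
    obtain ⟨hzS, hzG, hzR, hzr, hzN⟩ := hz n
    have hznU := hG (z n) hzS (lt_of_lt_of_le hzn (min_le_right _ _))
    obtain ⟨η, hη, hη1, -⟩ := hG1 r0 r1 h S hTN (z n) (hz n)
    have hmap := map_nhds' Φ U hU (z n) hznU.1 hC hznU.2.2.1
    -- a neighbourhood of z n
    have hW : {x : E3 | x ∈ U ∧ dist x (z n) < η ∧ dist x y < min δ ε} ∈ 𝓝 (z n) := by
      have e1 : ∀ᶠ x in 𝓝 (z n), x ∈ U := hU.mem_nhds hznU.1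
      have e2 : ∀ᶠ x in 𝓝 (z n), dist x (z n) < η := Metric.ball_mem_nhds _ hη
      have e3 : ∀ᶠ x in 𝓝 (z n), dist x y < min δ ε :=
        (isOpen_lt (by fun_prop) continuous_const).mem_nhds hzn
      filter_upwards [e1, e2, e3] with x h1 h2 h3 using ⟨h1, h2, h3⟩
    have hW' : Φ '' {x : E3 | x ∈ U ∧ dist x (z n) < η ∧ dist x y < min δ ε} ∈ 𝓝 (Φ (z n)) := by
      rw [← hmap]
      exact image_mem_map hW
    obtain ⟨κ, hκ, hκW⟩ := Metric.mem_nhds_iff.1 hW'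
    obtain ⟨i, w, hwF, hwd⟩ := hF3 (Φ (z n)) ((hSM _ hznU.1).1 hzS) κ hκ
    obtain ⟨x, ⟨hxU, hxη, hxy⟩, hxw⟩ := hκW (show w ∈ Metric.ball (Φ (z n)) κ from hwd)
    have hxS : x ∈ S := by
      rw [hSM x hxU, hxw]
      exact (hF2 i w hwF).1
    refine ⟨x, hδV (lt_of_lt_of_le hxy (min_le_left _ _)), i, hxS,
      lt_of_lt_of_le hxy (min_le_right _ _), ?_, ?_⟩
    · rw [hxw]; exact hwF
    · exact (hη1 x hxS hxη).2.2.2.2
  -- constant face
  obtain ⟨i, hi⟩ : ∃ i, ∃ᶠ x in 𝓝 y, x ∈ S ∧ dist x y < ε ∧ Φ x ∈ F i ∧ Nrm S x := by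
    by_contra hno
    have h1 : ∀ i, ∀ᶠ x in 𝓝 y, ¬ (x ∈ S ∧ dist x y < ε ∧ Φ x ∈ F i ∧ Nrm S x) := by
      intro i
      exact Filter.not_frequently.1 (fun hc => hno ⟨i, hc⟩)
    have h2 := Filter.eventually_all.2 h1
    apply hstep
    filter_upwards [h2] with x hx
    rintro ⟨i, h3⟩
    exact hx i h3
  have hPi : PR Φ (N i) y := by
    apply PR_lim Φ (N i) y hA
    apply hi.mono
    rintro x ⟨hxS, hxd, hxF, hxN⟩
    exact PR_of_nrm Φ (N i) S x hxN (((hG x hxS hxd).2.2.2 i hxF).2)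
  obtain ⟨hi1, hi2⟩ := PR_alg Φ (N i) y hiso (hN1 i) hPi
  have hJ : 0 < dt (Jv y) (Jv y) := dt_self_pos _ (Jv_ne y hr)
  obtain ⟨j, hj0, hj1⟩ := hF5 i
  -- face points on F j
  have hmapy := map_nhds' Φ U hU y hyU hC hinjy
  have hstep2 : ∃ᶠ x in 𝓝 y, x ∈ S ∧ dist x y < ε ∧ Φ x ∈ F j ∧ 0 < rad x := by
    rw [Filter.frequently_iff]
    intro V hV
    have hradc : Continuous rad := by
      unfold rad
      fun_prop
    have hW : {x : E3 | x ∈ U ∧ x ∈ V ∧ dist x y < ε ∧ 0 < rad x} ∈ 𝓝 y := by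
      have e1 : ∀ᶠ x in 𝓝 y, x ∈ U := hU.mem_nhds hyU
      have e2 : ∀ᶠ x in 𝓝 y, x ∈ V := hV
      have e3 : ∀ᶠ x in 𝓝 y, dist x y < ε := Metric.ball_mem_nhds _ hε
      have e4 : ∀ᶠ x in 𝓝 y, 0 < rad x := (isOpen_lt continuous_const hradc).mem_nhds hr
      filter_upwards [e1, e2, e3, e4] with x h1 h2 h3 h4 using ⟨h1, h2, h3, h4⟩
    have hW' : Φ '' {x : E3 | x ∈ U ∧ x ∈ V ∧ dist x y < ε ∧ 0 < rad x} ∈ 𝓝 (Φ y) := by
      rw [← hmapy]
      exact image_mem_map hW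
    rw [hΦy] at hW'
    obtain ⟨κ, hκ, hκW⟩ := Metric.mem_nhds_iff.1 hW'
    obtain ⟨w, hwF, hwd⟩ := hF4 j κ hκ
    obtain ⟨x, ⟨hxU, hxV, hxy, hxr⟩, hxw⟩ := hκW (show w ∈ Metric.ball 0 κ from hwd)
    have hxS : x ∈ S := by
      rw [hSM x hxU, hxw]
      exact (hF2 j w hwF).1
    refine ⟨x, hxV, hxS, hxy, ?_, hxr⟩
    rw [hxw]; exact hwF
  have hstep3 : ∃ᶠ x in 𝓝 y, (dt (fderiv ℝ Φ x (Jv x)) (N j) = 0) ∨ PR Φ (N j) x := by
    apply hstep2.mono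
    rintro x ⟨hxS, hxd, hxF, hxr⟩
    obtain ⟨-, hxG, -, hx4⟩ := hG x hxS hxd
    obtain ⟨hxR, hxT⟩ := hx4 j hxF
    rcases hTN x hxS hxG hxR hxr with ht | hn
    · left
      exact (hxT _).1 ht
    · right
      exact PR_of_nrm Φ (N j) S x hn hxT
  rcases Filter.frequently_or_distrib.1 hstep3 with h1 | h1
  · have h2 : dt (fderiv ℝ Φ y (Jv y)) (N j) = 0 := by
      apply lim_eq (fun x => dt (fderiv ℝ Φ x (Jv x)) (N j)) y _ h1
      apply dt_cont _ continuousAt_const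
      exact hA.clm_apply Jv_cont.continuousAt
    have h3 := hi1 (N j)
    rw [dt_comm (N j) (fderiv ℝ Φ y (Jv y)), h2, mul_zero] at h3
    rcases mul_eq_zero.1 h3 with h4 | h4
    · exact hJ.ne' h4
    · exact hj0 (by rw [dt_comm]; exact h4)
  · have hPj := PR_lim Φ (N j) y hA h1
    obtain ⟨hk1, hk2⟩ := PR_alg Φ (N j) y hiso (hN1 j) hPj
    have h3 := hi1 (N j)
    have h4 := hk1 (fderiv ℝ Φ y (Jv y))
    rw [dt_comm (N j) (fderiv ℝ Φ y (Jv y))] at h3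
    apply hj1
    rw [dt_comm (N j) (N i)] at h3
    set P := dt (Jv y) (Jv y) with hP
    set c := dt (fderiv ℝ Φ y (Jv y)) (N i) with hc
    set d := dt (fderiv ℝ Φ y (Jv y)) (N j) with hd
    have h5 : (P * dt (N i) (N j)) ^ 2 = P * P := by
      rw [h3, mul_pow, hi2, hk2]
    have h6 : P ^ 2 * (dt (N i) (N j) ^ 2 - 1) = 0 := by
      have := h5
      ring_nf at this ⊢
      linarith
    rcases mul_eq_zero.1 h6 with h7 | h7
    · exact absurd h7 (pow_ne_zero 2 hJ.ne')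
    · linarith

theorem hG4 : StFCE → StG0 → StG1 → StG4 := by
  intro hFCE hG0 hG1 r0 r1 h S y z hM hTN hyS hyG hr hMod hz hlim
  obtain ⟨⟨FY, NY, hFY, -, -⟩, FT, NT, hFT, -⟩ := hFCE
  rcases hMod with h1 | h1
  · exact core hG0 hG1 r0 r1 h S y z hM hTN hyS hyG hr Ycone h1 (Or.inl rfl) 3 FY NY hFY hz hlim
  · exact core hG0 hG1 r0 r1 h S y z hM hTN hyS hyG hr Tcone h1 (Or.inr rfl) 6 FT NT hFT hz hlim

end Pool.Agent.Helper60.MF
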